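import Pool.Agent.Lib.MP_46505f_co.Log

set_option autoImplicit false

namespace Pool.Agent.Results.MP_46505f_co.Exact

open Pool.Agent.Lib.MP_46505f_co

theorem result {W : Type} [Fintype W] [DecidableEq W] (H : SimpleGraph W) (p : ℕ → unitInterval)
    (span : Prop) (h : H.IsAcyclic ∨ Clear H (hi p)) :
    ⨅ d ∈ {d : ℝ | Adm H p span d}, (d : EReal) = thr H p span :=
  exact h

end Pool.Agent.Results.MP_46505f_co.Exact
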